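import Pool.Agent.Helper24.QD.Stmts2

/-! # Row EIG (MP_afe21c) -/

set_option autoImplicit false

namespace QD

/-- the restriction of a representation to a subgroup and an invariant submodule -/
def h34_restr {F V G : Type} [Field F] [AddCommGroup V] [Module F V] [Group G]
    (ρ : G →* Module.End F V) (G₀ : Subgroup G) (W : Submodule F V)
    (hW : ∀ g ∈ G₀, ∀ w ∈ W, ρ g w ∈ W) : G₀ →* Module.End F W where
  toFun g := (ρ (g : G)).restrict (hW g g.2)
  map_one' := by
    ext w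
    show (ρ 1) w.1 = w.1
    rw [map_one]
    rfl
  map_mul' g h := by
    ext w
    show (ρ ((g : G) * h)) w.1 = ρ g (ρ h w.1)
    rw [map_mul]
    rfl

theorem h34_restr_apply {F V G : Type} [Field F] [AddCommGroup V] [Module F V] [Group G]
    (ρ : G →* Module.End F V) (G₀ : Subgroup G) (W : Submodule F V)
    (hW : ∀ g ∈ G₀, ∀ w ∈ W, ρ g w ∈ W) (g : G₀) (w : W) :
    ((h34_restr ρ G₀ W hW g w : W) : V) = ρ g w := rfl

theorem st_EIG (hS : ST_STEP) : ST_EIG := by
  intro F V G _ _ _ _ _ _ _ ρ hsol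
  classical
  let P : ℕ → Prop := fun d => ∃ (G₀ : Subgroup G) (W : Submodule F V), G₀.FiniteIndex ∧
    W ≠ ⊥ ∧ (∀ g ∈ G₀, ∀ w ∈ W, ρ g w ∈ W) ∧ Module.finrank F W = d
  have hP : ∃ d, P d := ⟨_, ⊤, ⊤, inferInstance, top_ne_bot, fun f _ u _ => Submodule.mem_top, rfl⟩
  obtain ⟨G₀, W, hG₀, hW0, hWi, hWd⟩ := Nat.find_spec hP
  have hmin : ∀ (G' : Subgroup G) (W' : Submodule F V), G'.FiniteIndex → W' ≠ ⊥ →
      (∀ g ∈ G', ∀ w ∈ W', ρ g w ∈ W') → Module.finrank F W ≤ Module.finrank F W' := by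
    intro G' W' h1 h2 h3
    rw [hWd]
    exact Nat.find_min' hP ⟨G', W', h1, h2, h3, rfl⟩
  have hnt : Nontrivial W := (Submodule.nontrivial_iff_ne_bot).2 hW0
  have hirr : ∀ (G₁ : Subgroup G₀) (U : Submodule F W), G₁.FiniteIndex → U ≠ ⊥ →
      (∀ g ∈ G₁, ∀ u ∈ U, h34_restr ρ G₀ W hWi g u ∈ U) → U = ⊤ := by
    intro G₁ U hG₁ hU0 hUi
    have h1 : (G₁.map G₀.subtype).FiniteIndex := by
      constructor
      rw [Subgroup.index_map_subtype]
      exact mul_ne_zero hG₁.index_ne_zero hG₀.index_ne_zero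
    have h2 : U.map W.subtype ≠ ⊥ := by
      intro h
      obtain ⟨u, hu, hu0⟩ := Submodule.exists_mem_ne_zero_of_ne_bot hU0
      have h5 : (u : V) ∈ U.map W.subtype := ⟨u, hu, rfl⟩
      rw [h, Submodule.mem_bot] at h5
      exact hu0 (Subtype.ext h5)
    have h3 : ∀ g ∈ G₁.map G₀.subtype, ∀ w ∈ U.map W.subtype, ρ g w ∈ U.map W.subtype := by
      rintro _ ⟨g, hg, rfl⟩ _ ⟨u, hu, rfl⟩
      exact ⟨h34_restr ρ G₀ W hWi g u, hUi g hg u hu, rfl⟩
    have h4 := hmin _ _ h1 h2 h3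
    rw [LinearEquiv.finrank_eq (Submodule.equivMapOfInjective W.subtype
      (Submodule.injective_subtype W) U).symm] at h4
    exact Submodule.eq_top_of_finrank_eq (le_antisymm (Submodule.finrank_le U) h4)
  have hsol0 : Group.IsSolvable G₀ := inferInstance
  obtain ⟨m, hm⟩ := hsol0.solvable
  have key : ∀ k j : ℕ, j + k = m → ∀ x ∈ derivedSeries G₀ j,
      IsScal (h34_restr ρ G₀ W hWi x) := by
    intro k
    induction k with
    | zero =>
      intro j hj x hx
      rw [add_zero] at hj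
      rw [hj, hm, Subgroup.mem_bot] at hx
      refine ⟨1, fun v => ?_⟩
      rw [hx, map_one, one_smul]
      rfl
    | succ k ih =>
      intro j hj x hx
      refine hS F W G₀ (h34_restr ρ G₀ W hWi) hirr (derivedSeries G₀ j)
        (derivedSeries_normal G₀ j) ?_ x hx
      intro x hx y hy
      refine ih (j + 1) (by omega) _ ?_
      rw [derivedSeries_succ]
      exact Subgroup.commutator_mem_commutator hx hy
  obtain ⟨w, hw⟩ := exists_ne (0 : W)
  refine ⟨G₀, w, hG₀, fun h => hw (Subtype.ext h), fun g hg => ?_⟩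
  obtain ⟨c, hc⟩ := key m 0 (by omega) ⟨g, hg⟩ (by
    rw [derivedSeries_zero]
    exact Subgroup.mem_top _)
  refine ⟨c, ?_⟩
  have := congrArg Subtype.val (hc w)
  exact this

end QD
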