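import Pool.Agent.Helper24.QD.Stmts2

/-! # Row FLG (MP_afe21c) -/

set_option autoImplicit false

namespace QD

/-- the quotient representation -/
def h34_quot {F V G : Type} [Field F] [AddCommGroup V] [Module F V] [Group G]
    (ρ : G →* Module.End F V) (U : Submodule F V)
    (hU : ∀ g, ∀ u ∈ U, ρ g u ∈ U) : G →* Module.End F (V ⧸ U) where
  toFun g := U.mapQ U (ρ g) (fun u hu => hU g u hu)
  map_one' := by
    refine Submodule.linearMap_qext _ ?_
    ext w
    show Submodule.Quotient.mk (ρ 1 w) = (Submodule.Quotient.mk w : V ⧸ U)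
    rw [map_one]
    rfl
  map_mul' g h := by
    refine Submodule.linearMap_qext _ ?_
    ext w
    show Submodule.Quotient.mk (ρ (g * h) w) = (Submodule.Quotient.mk (ρ g (ρ h w)) : V ⧸ U)
    rw [map_mul]
    rfl

theorem h34_quot_apply {F V G : Type} [Field F] [AddCommGroup V] [Module F V] [Group G]
    (ρ : G →* Module.End F V) (U : Submodule F V)
    (hU : ∀ g, ∀ u ∈ U, ρ g u ∈ U) (g : G) (v : V) :
    h34_quot ρ U hU g (U.mkQ v) = U.mkQ (ρ g v) := rfl

theorem st_FLG (hE : ST_EIG) : ST_FLG := by
  intro F V G _ _ i1 i2 i3 _ ρ G₁ hG₁ hsol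
  classical
  generalize hd : Module.finrank F V = d
  induction d using Nat.strong_induction_on generalizing V with
  | _ d ih =>
  rcases subsingleton_or_nontrivial V with hV | hV
  · exact ⟨⊤, 0, Module.Basis.empty V, fun _ => 0, inferInstance,
      fun _ x => x.elim0, fun _ _ _ _ x => x.elim0⟩
  obtain ⟨G₀, v, hG₀, hv0, hv⟩ := hE F V G₁ (ρ.comp G₁.subtype) hsol
  have hN0 : (G₀.map G₁.subtype).FiniteIndex := by
    constructor
    rw [Subgroup.index_map_subtype]
    exact mul_ne_zero hG₀.index_ne_zero hG₁.index_ne_zero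
  set N1 : Subgroup G := (G₀.map G₁.subtype).normalCore with hN1
  have hN1f : N1.FiniteIndex := Subgroup.finiteIndex_normalCore _
  have hN1n : N1.Normal := Subgroup.normalCore_normal _
  have hm : ∀ x y : G, ∀ w : V, ρ (x * y) w = ρ x (ρ y w) := by
    intro x y w
    rw [map_mul]
    rfl
  let E : Set V := {w | ∀ g ∈ N1, ∃ c : F, ρ g w = c • w}
  let U : Submodule F V := Submodule.span F E
  have hvE : v ∈ E := by
    intro g hg
    obtain ⟨g', hg', rfl⟩ := Subgroup.normalCore_le _ hg
    exact hv g' hg'
  have hU0 : U ≠ ⊥ := by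
    intro h
    have : v ∈ U := Submodule.subset_span hvE
    rw [h, Submodule.mem_bot] at this
    exact hv0 this
  have hUi : ∀ g, ∀ u ∈ U, ρ g u ∈ U := by
    intro g u hu
    induction hu using Submodule.span_induction with
    | mem w hw =>
      refine Submodule.subset_span fun k hk => ?_
      have hk' : g⁻¹ * k * g ∈ N1 := by
        have := hN1n.conj_mem k hk g⁻¹
        rwa [inv_inv] at this
      obtain ⟨c, hc⟩ := hw _ hk'
      refine ⟨c, ?_⟩
      rw [← hm]
      have e : k * g = g * (g⁻¹ * k * g) := by group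
      rw [e, hm, hc, map_smul]
    | zero => rw [map_zero]; exact U.zero_mem
    | add x y _ _ hx hy => rw [map_add]; exact U.add_mem hx hy
    | smul c x _ hx => rw [map_smul]; exact U.smul_mem c hx
  have hUc : ∀ g ∈ N1, ∀ h ∈ N1, ∀ u ∈ U, ρ (g * h) u = ρ (h * g) u := by
    intro g hg h hh u hu
    induction hu using Submodule.span_induction with
    | mem w hw =>
      obtain ⟨c, hc⟩ := hw g hg
      obtain ⟨c', hc'⟩ := hw h hh
      rw [hm, hm, hc, hc', map_smul, map_smul, hc, hc', smul_smul, smul_smul, mul_comm]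
    | zero => rw [map_zero, map_zero]
    | add x y _ _ hx hy => rw [map_add, map_add, hx, hy]
    | smul c x _ hx => rw [map_smul, map_smul, hx]
  have hlt : Module.finrank F (V ⧸ U) < d := by
    have h1 := Submodule.finrank_quotient_add_finrank U
    have h2 : 1 ≤ Module.finrank F U := Submodule.one_le_finrank_iff.2 hU0
    omega
  obtain ⟨N2, n2, β2, b2, hN2, hb1, hb2⟩ := ih _ hlt (V ⧸ U) (h34_quot ρ U hUi) rfl
  let bU := Module.finBasis F U
  let γ := Module.Basis.sumQuot bU β2
  let e := finSumFinEquiv (m := Module.finrank F U) (n := n2)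
  let b' : Fin (Module.finrank F U) ⊕ Fin n2 → ℕ := Sum.elim (fun _ => 0) (fun j => b2 j + 1)
  have hin : ∀ j, U.mkQ (γ (Sum.inr j)) = β2 j := fun j => Module.Basis.sumQuot_inr bU β2 j
  refine ⟨N1 ⊓ N2, Module.finrank F U + n2, γ.reindex e, fun x => b' (e.symm x), ?_, ?_, ?_⟩
  · have := hN1f
    have := hN2
    exact inferInstance
  · intro g x y hxy
    obtain ⟨x, rfl⟩ := e.surjective x
    obtain ⟨y, rfl⟩ := e.surjective y
    simp only [Equiv.symm_apply_apply] at hxy
    rw [Module.Basis.repr_reindex_apply, Module.Basis.reindex_apply, Equiv.symm_apply_apply,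
      Equiv.symm_apply_apply]
    rcases x with i | j
    · exact absurd hxy (Nat.not_lt_zero _)
    · rcases y with i | k
      · rw [show γ = Module.Basis.sumQuot bU β2 from rfl, Module.Basis.sumQuot_repr_inr,
          Module.Basis.sumQuot_inl]
        have h1 : U.mkQ (ρ g (bU i : V)) = 0 := by
          rw [Submodule.mkQ_apply, Submodule.Quotient.mk_eq_zero]
          exact hUi g _ (bU i).2
        rw [h1, map_zero]
        rfl
      · have h1 : b2 k < b2 j := Nat.lt_of_succ_lt_succ hxy
        rw [show γ = Module.Basis.sumQuot bU β2 from rfl, Module.Basis.sumQuot_repr_inr]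
        have h2 := hb1 g j k h1
        rw [← hin k, h34_quot_apply] at h2
        exact h2
  · intro g hg h hh x y hxy
    obtain ⟨x, rfl⟩ := e.surjective x
    obtain ⟨y, rfl⟩ := e.surjective y
    simp only [Equiv.symm_apply_apply] at hxy
    rw [Module.Basis.repr_reindex_apply, Module.Basis.reindex_apply, Equiv.symm_apply_apply,
      Equiv.symm_apply_apply]
    rcases y with i | k
    · rw [show γ = Module.Basis.sumQuot bU β2 from rfl, Module.Basis.sumQuot_inl,
        hUc g hg.1 h hh.1 _ (bU i).2, Module.Basis.repr_reindex_apply, Equiv.symm_apply_apply]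
    · rcases x with i | j
      · exact absurd hxy (Nat.succ_ne_zero _).symm
      · have h1 : b2 j = b2 k := Nat.succ.inj hxy
        rw [Module.Basis.repr_reindex_apply, Equiv.symm_apply_apply,
          show γ = Module.Basis.sumQuot bU β2 from rfl, Module.Basis.sumQuot_repr_inr,
          Module.Basis.sumQuot_repr_inr]
        have h2 := hb2 g hg.2 h hh.2 j k h1
        rw [← hin k, h34_quot_apply, h34_quot_apply] at h2
        exact h2

end QD
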