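import Pool.Agent.Helper24.QD.Stmts2

/-! # Row STEP (MP_afe21c) -/

set_option autoImplicit false

namespace QD

theorem h34_fi {G : Type} [Group G] (G1 : Subgroup G) {α : Type} (φ : G → α)
    (hfin : (Set.range φ).Finite) (h : ∀ g k, φ g = φ k → g⁻¹ * k ∈ G1) : G1.FiniteIndex := by
  have : Finite (Set.range φ) := hfin
  have : Finite (G ⧸ G1) := Finite.of_injective
    (fun q : G ⧸ G1 => (⟨φ q.out, ⟨q.out, rfl⟩⟩ : Set.range φ)) (by
      intro q q' hq
      have h1 : φ q.out = φ q'.out := congrArg Subtype.val hq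
      have h2 := h _ _ h1
      rw [← QuotientGroup.out_eq' q, ← QuotientGroup.out_eq' q']
      exact QuotientGroup.eq.2 h2)
  exact Subgroup.finiteIndex_of_finite_quotient

section

variable {F V G : Type} [Field F] [IsAlgClosed F] [AddCommGroup V] [Module F V]
  [FiniteDimensional F V] [Nontrivial V] [Group G] (ρ : G →* Module.End F V)

theorem h34_mul_apply (x y : G) (v : V) : ρ (x * y) v = ρ x (ρ y v) := by
  rw [map_mul]
  rfl

/-- a normal subgroup with commutative image is scalar -/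
theorem h34_abel (hW : ST_WTS) (hC : ST_CEV)
    (hirr : ∀ (G₁ : Subgroup G) (U : Submodule F V), G₁.FiniteIndex → U ≠ ⊥ →
      (∀ g ∈ G₁, ∀ u ∈ U, ρ g u ∈ U) → U = ⊤)
    (Z : Subgroup G) (hZ : Z.Normal) (hc : ∀ x ∈ Z, ∀ y ∈ Z, ρ x * ρ y = ρ y * ρ x) :
    ∀ z ∈ Z, IsScal (ρ z) := by
  obtain ⟨v, hv0, hv⟩ := hC F V (ρ '' (Z : Set G)) (by
    rintro _ ⟨x, hx, rfl⟩ _ ⟨y, hy, rfl⟩
    exact hc x hx y hy)
  have hex : ∀ z : Z, ∃ c : F, ρ z v = c • v := fun z => hv _ ⟨z, z.2, rfl⟩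
  choose χ hχ using hex
  have hfin := hW F V Z (fun z => ρ z)
  let cj : G → Z → Z := fun g z => ⟨g⁻¹ * z * g, by
    have := hZ.conj_mem z z.2 g⁻¹
    rwa [inv_inv] at this⟩
  have cj_mul : ∀ g h z, cj (g * h) z = cj h (cj g z) := by
    intro g h z
    apply Subtype.ext
    show (g * h)⁻¹ * z * (g * h) = h⁻¹ * (g⁻¹ * z * g) * h
    group
  have cj_one : ∀ z, cj 1 z = z := by
    intro z
    apply Subtype.ext
    show (1 : G)⁻¹ * z * 1 = z
    group
  have cj_inv : ∀ g z, cj g (cj g⁻¹ z) = z := by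
    intro g z
    rw [← cj_mul, inv_mul_cancel, cj_one]
  have hmv : ∀ (g : G) (z : Z) (w : V), ρ z (ρ g w) = ρ g (ρ (cj g z) w) := by
    intro g z w
    rw [← h34_mul_apply, ← h34_mul_apply]
    congr 2
    show (z : G) * g = g * (g⁻¹ * z * g)
    group
  let G1 : Subgroup G :=
    { carrier := {g | ∀ z, χ (cj g z) = χ z}
      mul_mem' := by
        intro g h hg hh z
        rw [cj_mul, hh, hg]
      one_mem' := by
        intro z
        rw [cj_one]
      inv_mem' := by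
        intro g hg z
        have := hg (cj g⁻¹ z)
        rw [cj_inv] at this
        exact this.symm }
  have hG1 : G1.FiniteIndex := by
    refine h34_fi G1 (fun g z => χ (cj g z)) (hfin.subset ?_) ?_
    · rintro _ ⟨g, rfl⟩
      refine ⟨ρ g v, ?_, ?_⟩
      · intro h0
        have h1 : ρ (g⁻¹ * g) v = 0 := by rw [h34_mul_apply, h0, map_zero]
        rw [inv_mul_cancel, map_one] at h1
        exact hv0 h1
      · intro z
        show ρ z (ρ g v) = χ (cj g z) • ρ g v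
        rw [hmv, hχ, map_smul]
    · intro g k hgk z
      have h1 : χ (cj g (cj g⁻¹ z)) = χ (cj k (cj g⁻¹ z)) := congrFun hgk (cj g⁻¹ z)
      rw [cj_inv, ← cj_mul] at h1
      exact h1.symm
  let U : Submodule F V := ⨅ z : Z, Module.End.eigenspace (ρ z) (χ z)
  have hU : U = ⊤ := by
    refine hirr G1 U hG1 ?_ ?_
    · intro h
      have : v ∈ U := (Submodule.mem_iInf _).2 fun z => Module.End.mem_eigenspace_iff.2 (hχ z)
      rw [h, Submodule.mem_bot] at this
      exact hv0 this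
    · intro g hg u hu
      refine (Submodule.mem_iInf _).2 fun z => Module.End.mem_eigenspace_iff.2 ?_
      have h1 : ρ (cj g z) u = χ (cj g z) • u :=
        Module.End.mem_eigenspace_iff.1 ((Submodule.mem_iInf _).1 hu (cj g z))
      rw [hmv, h1, map_smul, hg z]
  intro z hz
  refine ⟨χ ⟨z, hz⟩, fun w => ?_⟩
  have hw : w ∈ U := by
    rw [hU]
    exact Submodule.mem_top
  exact Module.End.mem_eigenspace_iff.1 ((Submodule.mem_iInf _).1 hw ⟨z, hz⟩)

end

theorem st_STEP (hW : ST_WTS) (hC : ST_CEV) : ST_STEP := by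
  intro F V G _ _ _ _ _ _ _ ρ hirr B hBn hB
  have hm := h34_mul_apply ρ
  -- the centre modulo scalars
  let Z : Subgroup G :=
    { carrier := {z | z ∈ B ∧ ∀ b ∈ B, ρ (z * b) = ρ (b * z)}
      mul_mem' := by
        rintro x y ⟨hx, hx'⟩ ⟨hy, hy'⟩
        refine ⟨B.mul_mem hx hy, fun b hb => ?_⟩
        calc ρ (x * y * b) = ρ x * ρ (y * b) := by rw [mul_assoc, map_mul]
          _ = ρ x * ρ (b * y) := by rw [hy' b hb]
          _ = ρ (x * b) * ρ y := by rw [← map_mul, ← map_mul, mul_assoc]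
          _ = ρ (b * x) * ρ y := by rw [hx' b hb]
          _ = ρ (b * (x * y)) := by rw [← map_mul, mul_assoc]
      one_mem' := ⟨B.one_mem, fun b _ => by rw [one_mul, mul_one]⟩
      inv_mem' := by
        rintro x ⟨hx, hx'⟩
        refine ⟨B.inv_mem hx, fun b hb => ?_⟩
        calc ρ (x⁻¹ * b) = ρ (x⁻¹ * (b * x) * x⁻¹) := by congr 1; group
          _ = ρ x⁻¹ * ρ (b * x) * ρ x⁻¹ := by rw [← map_mul, ← map_mul]
          _ = ρ x⁻¹ * ρ (x * b) * ρ x⁻¹ := by rw [hx' b hb]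
          _ = ρ (x⁻¹ * (x * b) * x⁻¹) := by rw [← map_mul, ← map_mul]
          _ = ρ (b * x⁻¹) := by congr 1; group }
  have hZn : Z.Normal := by
    constructor
    rintro z ⟨hz, hz'⟩ g
    refine ⟨hBn.conj_mem z hz g, fun b hb => ?_⟩
    have hb' : g⁻¹ * b * g ∈ B := by
      have := hBn.conj_mem b hb g⁻¹
      rwa [inv_inv] at this
    calc ρ (g * z * g⁻¹ * b) = ρ (g * (z * (g⁻¹ * b * g)) * g⁻¹) := by congr 1; group
      _ = ρ g * ρ (z * (g⁻¹ * b * g)) * ρ g⁻¹ := by rw [← map_mul, ← map_mul]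
      _ = ρ g * ρ ((g⁻¹ * b * g) * z) * ρ g⁻¹ := by rw [hz' _ hb']
      _ = ρ (g * ((g⁻¹ * b * g) * z) * g⁻¹) := by rw [← map_mul, ← map_mul]
      _ = ρ (b * (g * z * g⁻¹)) := by congr 1; group
  have hZs : ∀ z ∈ Z, IsScal (ρ z) := by
    refine h34_abel ρ hW hC hirr Z hZn ?_
    rintro x ⟨hx, hx'⟩ y ⟨hy, _⟩
    rw [← map_mul, ← map_mul]
    exact hx' y hy
  -- the weights of the conjugation action
  have hψ : ∀ b : B, ∃ ψ : B → F, ∀ x : B, ρ ((x : G) * b * (x : G)⁻¹) = ψ x • ρ b := by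
    intro b
    have h1 : ∀ x : B, ∃ c : F, ρ ((x : G) * b * (x : G)⁻¹) = c • ρ b := by
      intro x
      obtain ⟨c, hc⟩ := hB x x.2 b b.2
      refine ⟨c, ?_⟩
      ext v
      have h2 := hc (ρ b v)
      rw [← hm] at h2
      have h3 : (x : G) * (b : G) * (x : G)⁻¹ * (b : G)⁻¹ * (b : G) = (x : G) * (b : G) * (x : G)⁻¹ :=
        inv_mul_cancel_right _ _
      rw [h3] at h2
      rw [h2]
      rfl
    choose ψ hψ using h1
    exact ⟨ψ, hψ⟩
  choose ψ hψ using hψ
  have hne : ∀ g : G, ρ g ≠ 0 := by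
    intro g h0
    obtain ⟨v, hv⟩ := exists_ne (0 : V)
    have h1 : ρ (g⁻¹ * g) v = 0 := by rw [hm, h0]; simp
    rw [inv_mul_cancel, map_one] at h1
    exact hv h1
  have hψfin : (Set.range ψ).Finite := by
    have hfin := hW F (Module.End F V) B
      (fun x => (LinearMap.mulLeft F (ρ x)).comp (LinearMap.mulRight F (ρ (x : G)⁻¹)))
    refine hfin.subset ?_
    rintro _ ⟨b, rfl⟩
    refine ⟨ρ b, hne b, fun x => ?_⟩
    show ρ (x : G) * (ρ (b : G) * ρ (x : G)⁻¹) = ψ b x • ρ (b : G)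
    rw [← hψ, map_mul, map_mul, mul_assoc]
  have hψZ : ∀ b b' : B, ψ b = ψ b' → ((b : G)⁻¹ * b') ∈ Z := by
    intro b b' h
    refine ⟨B.mul_mem (B.inv_mem b.2) b'.2, fun x hx => ?_⟩
    have h1 : ρ (x * b * x⁻¹ : G) = ψ b ⟨x, hx⟩ • ρ b := hψ b ⟨x, hx⟩
    have h2 : ρ (x * b' * x⁻¹ : G) = ψ b ⟨x, hx⟩ • ρ b' := by
      rw [h]
      exact hψ b' ⟨x, hx⟩
    -- multiply: ρ (x b x⁻¹) * ρ (b⁻¹ b') = ψ ρ b' = ρ (x b' x⁻¹)
    have h3 : ρ (x * b * x⁻¹ * ((b : G)⁻¹ * b')) = ρ (x * b' * x⁻¹) := by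
      rw [map_mul, h1, h2, smul_mul_assoc, ← map_mul]
      congr 2
      group
    calc ρ ((b : G)⁻¹ * b' * x) = ρ ((x * b * x⁻¹)⁻¹) * ρ (x * b * x⁻¹ * ((b : G)⁻¹ * b')) * ρ x := by
          rw [← map_mul, ← map_mul]
          congr 1
          group
      _ = ρ ((x * b * x⁻¹)⁻¹) * ρ (x * b' * x⁻¹) * ρ x := by rw [h3]
      _ = ρ (x * ((b : G)⁻¹ * b')) := by
          rw [← map_mul, ← map_mul]
          congr 1
          group
  -- representatives
  obtain ⟨R, hR⟩ : ∃ R : Finset B, ∀ b : B, ∃ r ∈ R, ((r : G)⁻¹ * b) ∈ Z := by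
    classical
    have h1 : ∀ f ∈ Set.range ψ, ∃ b, ψ b = f := fun f hf => hf
    choose! r hr using h1
    refine ⟨hψfin.toFinset.image r, fun b => ⟨r (ψ b), ?_, ?_⟩⟩
    · exact Finset.mem_image_of_mem r (hψfin.mem_toFinset.2 ⟨b, rfl⟩)
    · exact hψZ _ _ (hr (ψ b) ⟨b, rfl⟩)
  -- the centraliser
  let C : Subgroup G :=
    { carrier := {g | ∀ b ∈ B, ρ (g * b) = ρ (b * g)}
      mul_mem' := by
        intro x y hx hy b hb
        calc ρ (x * y * b) = ρ x * ρ (y * b) := by rw [mul_assoc, map_mul]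
          _ = ρ x * ρ (b * y) := by rw [hy b hb]
          _ = ρ (x * b) * ρ y := by rw [← map_mul, ← map_mul, mul_assoc]
          _ = ρ (b * x) * ρ y := by rw [hx b hb]
          _ = ρ (b * (x * y)) := by rw [← map_mul, mul_assoc]
      one_mem' := fun b _ => by rw [one_mul, mul_one]
      inv_mem' := by
        intro x hx b hb
        calc ρ (x⁻¹ * b) = ρ (x⁻¹ * (b * x) * x⁻¹) := by congr 1; group
          _ = ρ x⁻¹ * ρ (b * x) * ρ x⁻¹ := by rw [← map_mul, ← map_mul]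
          _ = ρ x⁻¹ * ρ (x * b) * ρ x⁻¹ := by rw [hx b hb]
          _ = ρ (x⁻¹ * (x * b) * x⁻¹) := by rw [← map_mul, ← map_mul]
          _ = ρ (b * x⁻¹) := by congr 1; group }
  have hn : 0 < Module.finrank F V := Module.finrank_pos
  have hdet : ∀ g : G, LinearMap.det (ρ g) ≠ 0 := by
    intro g h0
    have h1 : LinearMap.det (ρ (g * g⁻¹)) = 0 := by rw [map_mul, map_mul, h0, zero_mul]
    rw [mul_inv_cancel, map_one, map_one] at h1
    exact one_ne_zero h1
  have hCf : C.FiniteIndex := by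
    classical
    refine h34_fi C (fun g (r : R) => ρ (g * r.1 * g⁻¹)) ?_ ?_
    · have hfin : ∀ r : R, (⋃ s ∈ (R : Set B), (fun c : F => c • ρ (s : G)) ''
          {c : F | c ^ Module.finrank F V = LinearMap.det (ρ (r.1 : G)) /
            LinearMap.det (ρ (s : G))}).Finite := by
        intro r
        refine R.finite_toSet.biUnion fun s _ => Set.Finite.image _ ?_
        refine ((Polynomial.nthRoots (Module.finrank F V)
          (LinearMap.det (ρ (r.1 : G)) / LinearMap.det (ρ (s : G)))).toFinset.finite_toSet).subset ?_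
        intro c hc
        simp only [Finset.mem_coe, Multiset.mem_toFinset]
        exact (Polynomial.mem_nthRoots hn).2 hc
      refine (Set.Finite.pi' hfin).subset ?_
      rintro _ ⟨g, rfl⟩ r
      have hb : g * r.1 * g⁻¹ ∈ B := hBn.conj_mem _ r.1.2 g
      obtain ⟨s, hs, hsZ⟩ := hR ⟨_, hb⟩
      obtain ⟨c, hc⟩ := hZs _ hsZ
      have h1 : ρ (g * r.1 * g⁻¹) = c • ρ (s : G) := by
        ext v
        have h2 := hc v
        have h3 : ρ ((s : G) * ((s : G)⁻¹ * (g * r.1 * g⁻¹))) v = ρ (s : G) (c • v) := by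
          rw [hm, h2]
        rw [mul_inv_cancel_left, map_smul] at h3
        rw [h3]
        rfl
      refine Set.mem_biUnion (show s ∈ (R : Set B) from hs) ⟨c, ?_, h1.symm⟩
      show c ^ Module.finrank F V = _
      have h4 : LinearMap.det (ρ (g * r.1 * g⁻¹)) = LinearMap.det (ρ (r.1 : G)) := by
        rw [map_mul, map_mul, map_mul, map_mul, mul_comm, ← mul_assoc]
        have h5 : LinearMap.det (ρ g⁻¹) * LinearMap.det (ρ g) = 1 := by
          rw [← map_mul, ← map_mul, inv_mul_cancel, map_one, map_one]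
        rw [h5, one_mul]
      rw [h1, LinearMap.det_smul] at h4
      rw [eq_div_iff (hdet _), h4]
    · intro g k hgk b hb
      have h1 : ∀ r ∈ R, ρ (g * (r : G) * g⁻¹) = ρ (k * (r : G) * k⁻¹) := fun r hr =>
        congrFun hgk ⟨r, hr⟩
      obtain ⟨r, hr, hrZ⟩ := hR ⟨b, hb⟩
      obtain ⟨c, hc⟩ := hZs _ hrZ
      have hsc : ∀ (T : G), ρ ((r : G)⁻¹ * b) * ρ T = ρ T * ρ ((r : G)⁻¹ * b) := by
        intro T
        ext v
        show ρ ((r : G)⁻¹ * b) (ρ T v) = ρ T (ρ ((r : G)⁻¹ * b) v)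
        rw [hc, hc, map_smul]
      have h2 : ρ (g⁻¹ * k * r) = ρ (r * (g⁻¹ * k)) := by
        calc ρ (g⁻¹ * k * r) = ρ g⁻¹ * ρ (k * (r : G) * k⁻¹) * ρ k := by
              rw [← map_mul, ← map_mul]
              congr 1
              group
          _ = ρ g⁻¹ * ρ (g * (r : G) * g⁻¹) * ρ k := by rw [h1 r hr]
          _ = ρ (r * (g⁻¹ * k)) := by
              rw [← map_mul, ← map_mul]
              congr 1
              group
      calc ρ (g⁻¹ * k * b) = ρ (g⁻¹ * k * r) * ρ ((r : G)⁻¹ * b) := by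
            rw [← map_mul]
            congr 1
            group
        _ = ρ r * (ρ (g⁻¹ * k) * ρ ((r : G)⁻¹ * b)) := by rw [h2, map_mul, mul_assoc]
        _ = ρ r * (ρ ((r : G)⁻¹ * b) * ρ (g⁻¹ * k)) := by rw [hsc]
        _ = ρ (b * (g⁻¹ * k)) := by
            rw [← map_mul, ← map_mul]
            congr 1
            group
  -- the end
  intro b hb
  obtain ⟨μ, hμ⟩ := Module.End.exists_eigenvalue (ρ b)
  obtain ⟨w, hw⟩ := hμ.exists_hasEigenvector
  have hU : Module.End.eigenspace (ρ b) μ = ⊤ := by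
    refine hirr C _ hCf ?_ ?_
    · intro h
      have : w ∈ Module.End.eigenspace (ρ b) μ := Module.End.mem_eigenspace_iff.2 hw.apply_eq_smul
      rw [h, Submodule.mem_bot] at this
      exact hw.2 this
    · intro g hg u hu
      have h1 := Module.End.mem_eigenspace_iff.1 hu
      refine Module.End.mem_eigenspace_iff.2 ?_
      rw [← hm, ← hg b hb, hm, h1, map_smul]
  refine ⟨μ, fun v => ?_⟩
  have hv : v ∈ Module.End.eigenspace (ρ b) μ := by
    rw [hU]
    exact Submodule.mem_top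
  exact Module.End.mem_eigenspace_iff.1 hv

end QD
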