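import Pool.Agent.Helper24.QD.Stmts2

/-! # Row WTS and CEV (MP_afe21c) -/

set_option autoImplicit false

namespace QD

theorem st_WTS : ST_WTS := by
  intro F V ι _ _ _ _ f
  set W : Set (ι → F) := {χ : ι → F | ∃ v : V, v ≠ 0 ∧ ∀ i, f i v = χ i • v} with hW
  have hex : ∀ χ : W, ∃ v : V, v ≠ 0 ∧ ∀ i, f i v = χ.1 i • v := fun χ => χ.2
  choose v hv0 hv using hex
  have hli : LinearIndependent F v := by
    rw [linearIndependent_iff']
    classical
    intro s
    induction s using Finset.induction_on with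
    | empty => intro c _ χ hχ; simp at hχ
    | insert χ0 s hχ0 ih =>
      intro c hc
      have h1 : ∀ χ ∈ s, c χ = 0 := by
        intro χ hχ
        have hne : χ.1 ≠ χ0.1 := fun h => hχ0 (by rwa [Subtype.ext h] at hχ)
        obtain ⟨i, hi⟩ := Function.ne_iff.1 hne
        have h2 : ∑ χ ∈ s, (c χ * (χ.1 i - χ0.1 i)) • v χ = 0 := by
          have h3 : f i (∑ χ ∈ insert χ0 s, c χ • v χ) - χ0.1 i • (∑ χ ∈ insert χ0 s, c χ • v χ)
              = 0 := by
            rw [hc]
            simp
          rw [map_sum, Finset.smul_sum, ← Finset.sum_sub_distrib, Finset.sum_insert hχ0] at h3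
          have h4 : f i (c χ0 • v χ0) - χ0.1 i • c χ0 • v χ0 = 0 := by
            rw [map_smul, hv, smul_smul, smul_smul, mul_comm, sub_self]
          rw [h4, zero_add] at h3
          rw [← h3]
          refine Finset.sum_congr rfl fun χ _ => ?_
          rw [map_smul, hv, smul_smul, smul_smul, ← sub_smul]
          congr 1
          ring
        have h5 := ih _ h2 χ hχ
        rcases mul_eq_zero.1 h5 with h | h
        · exact h
        · exact absurd (sub_eq_zero.1 h) hi
      intro χ hχ
      rcases Finset.mem_insert.1 hχ with h | h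
      · rw [h]
        rw [Finset.sum_insert hχ0, Finset.sum_eq_zero (fun χ hχ => by rw [h1 χ hχ, zero_smul]),
          add_zero] at hc
        exact (smul_eq_zero.1 hc).resolve_right (hv0 χ0)
      · exact h1 χ h
  have hfin : Finite W := hli.finite
  exact Set.toFinite W

theorem st_CEV : ST_CEV := by
  intro F V _ _ _ _ _ _ S hS
  classical
  -- a nonzero invariant submodule of minimal dimension
  let P : ℕ → Prop := fun d => ∃ U : Submodule F V, U ≠ ⊥ ∧ (∀ f ∈ S, ∀ u ∈ U, f u ∈ U) ∧
    Module.finrank F U = d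
  have hP : ∃ d, P d := ⟨_, ⊤, top_ne_bot, fun f _ u _ => Submodule.mem_top, rfl⟩
  obtain ⟨U, hU0, hUS, hUd⟩ := Nat.find_spec hP
  have hmin : ∀ U' : Submodule F V, U' ≠ ⊥ → (∀ f ∈ S, ∀ u ∈ U', f u ∈ U') → U' ≤ U → U' = U := by
    intro U' h1 h2 h3
    refine Submodule.eq_of_le_of_finrank_le h3 ?_
    rw [hUd]
    exact Nat.find_min' hP ⟨U', h1, h2, rfl⟩
  have key : ∀ f ∈ S, ∃ c : F, ∀ u ∈ U, f u = c • u := by
    intro f hf
    have hnt : Nontrivial U := (Submodule.nontrivial_iff_ne_bot).2 hU0
    obtain ⟨c, hc⟩ := Module.End.exists_eigenvalue (f.restrict (hUS f hf) : Module.End F U)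
    obtain ⟨w, hw⟩ := hc.exists_hasEigenvector
    have hw1 : f w.1 = c • w.1 := by
      have := congrArg Subtype.val hw.apply_eq_smul
      simpa using this
    let U' : Submodule F V := U ⊓ Module.End.eigenspace f c
    have e : U' = U := by
      refine hmin U' ?_ ?_ inf_le_left
      · intro h
        have : w.1 ∈ U' := ⟨w.2, Module.End.mem_eigenspace_iff.2 hw1⟩
        rw [h, Submodule.mem_bot] at this
        exact hw.2 (Subtype.ext this)
      · intro g hg u hu
        refine ⟨hUS g hg u hu.1, Module.End.mem_eigenspace_iff.2 ?_⟩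
        have h1 : f u = c • u := Module.End.mem_eigenspace_iff.1 hu.2
        have h2 : f (g u) = g (f u) := by
          have := congrArg (fun T : Module.End F V => T u) (hS f hf g hg)
          simpa using this
        rw [h2, h1, map_smul]
    refine ⟨c, fun u hu => ?_⟩
    rw [← e] at hu
    exact Module.End.mem_eigenspace_iff.1 hu.2
  obtain ⟨v, hvU, hv0⟩ := Submodule.exists_mem_ne_zero_of_ne_bot hU0
  refine ⟨v, hv0, fun f hf => ?_⟩
  obtain ⟨c, hc⟩ := key f hf
  exact ⟨c, hc v hvU⟩

end QD
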